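import Pool.Agent.H88.KN.Targets

/-!
MP_b5bf4a_co, dense range, module NC (helper48): the quadratic form at the indicator of a set.
-/

namespace Pool.Agent.H48.KN

open Finset
open Pool.Agent.H88.KN Pool.Agent.H66.GG

theorem pf_NC : T_NC := by
  intro V _ _ rel S f hf
  classical
  rw [cut_eq_sum, Nat.cast_sum, Fintype.sum_prod_type]
  unfold Pool.Agent.H88.KN.FF
  refine Finset.sum_congr rfl (fun v _ => Finset.sum_congr rfl (fun w _ => ?_))
  rw [hf v, hf w]
  by_cases h0 : rel v w <;> by_cases h1 : v ∈ S <;> by_cases h2 : w ∈ S <;> simp [h0, h1, h2]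

end Pool.Agent.H48.KN
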